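import Pool.Agent.TH685.TI.BtU

set_option autoImplicit false
set_option maxHeartbeats 1000000

/-! # Representations `2 n = p + q` with `p`, `q`, `p_{q+2} + 2` prime: both primes are large for most `n` -/

namespace Pool.Agent.Results.MP_0ec542_nt.BothPrimesLarge

open Finset Pool.Agent.TH685.Gen

/-- the condition on `q` in the problem: `q` and `p_{q+2} + 2` are prime, where `p_k` is the `k`-th prime -/
def Adm (q : ℕ) : Prop := q.Prime ∧ (Nat.nth Nat.Prime (q + 1) + 2).Prime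

/-- **Theorem.** For every `ε > 0` there is `c > 0` such that for all large `X` and all `Y`, all but at most
`ε X` of the integers `n` with `Y < n ≤ Y + X` have the following property: if `2 n = p + q` with `p`, `q`
and `p_{q+2} + 2` prime then more than `c log X` primes `q' < q` have `p_{q'+2} + 2` prime, and both `p`
and `q` are larger than `c log X log log X`. -/
theorem result (ε : ℝ) (hε : 0 < ε) : ∃ c : ℝ, 0 < c ∧ ∃ X₀ : ℕ, ∀ X : ℕ, X₀ ≤ X → ∀ Y : ℕ,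
    ∃ B : Finset ℕ, (B.card : ℝ) ≤ ε * X ∧ ∀ n : ℕ, Y < n → n ≤ Y + X → n ∉ B →
      ∀ p q : ℕ, p.Prime → q.Prime → (Nat.nth Nat.Prime (q + 1) + 2).Prime → p + q = 2 * n →
        c * Real.log X < Set.ncard {q' : ℕ | q' < q ∧ q'.Prime ∧
          (Nat.nth Nat.Prime (q' + 1) + 2).Prime} ∧
        c * (Real.log X * Real.log (Real.log X)) < p ∧
        c * (Real.log X * Real.log (Real.log X)) < q := by
  obtain ⟨C, hC, hcov⟩ := cover_bt
  obtain ⟨c₀, hc₀d⟩ : ∃ c₀ : ℝ, c₀ = ε / (6 * C) := ⟨_, rfl⟩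
  have hc₀ : 0 < c₀ := by rw [hc₀d]; positivity
  obtain ⟨c₁, hc₁, X₂, hbig⟩ := prime_big c₀ hc₀
  obtain ⟨X₃, hX₃⟩ : ∃ X₃ : ℕ, ∀ X : ℕ, X₃ ≤ X → 1 ≤ c₀ * Real.log X ∧ 1 ≤ Real.log X ∧ 3 ≤ X := by
    refine ⟨max 3 ⌈Real.exp (max 1 (1 / c₀))⌉₊, fun X hX => ?_⟩
    have h1 : Real.exp (max 1 (1 / c₀)) ≤ X := Nat.ceil_le.1 ((le_max_right _ _).trans hX)
    have h2 := Real.log_le_log (Real.exp_pos _) h1
    rw [Real.log_exp] at h2
    have h3 : 1 / c₀ ≤ Real.log X := (le_max_right _ _).trans h2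
    rw [div_le_iff₀ hc₀] at h3
    exact ⟨by linarith, (le_max_left _ _).trans h2, (le_max_left _ _).trans hX⟩
  refine ⟨min c₀ c₁, lt_min hc₀ hc₁, max X₂ X₃, fun X hX Y => ?_⟩
  obtain ⟨h1, h2, hX3⟩ := hX₃ X ((le_max_right _ _).trans hX)
  have hXr : (3 : ℝ) ≤ X := by exact_mod_cast hX3
  have hX2 := hbig X ((le_max_left _ _).trans hX)
  obtain ⟨L, hLd⟩ : ∃ L : ℝ, L = Real.log X := ⟨_, rfl⟩
  have hcov' := hcov X hX3 Y
  rw [← hLd] at h1 h2 hX2 hcov' ⊢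
  obtain ⟨S₁, hS₁, hm₁⟩ := first_card Adm (c₀ * L) (by linarith) (2 * (Y + X) + 1)
  obtain ⟨S₂, hS₂, hm₂⟩ := first_card (fun j => j.Prime) (c₀ * L) (by linarith) (2 * (Y + X) + 1)
  obtain ⟨B₁, hB₁, hn₁⟩ := hcov' S₁
  obtain ⟨B₂, hB₂, hn₂⟩ := hcov' S₂
  refine ⟨B₁ ∪ B₂, ?_, ?_⟩
  · have h3 : ((B₁ ∪ B₂).card : ℝ) ≤ B₁.card + B₂.card := by exact_mod_cast card_union_le _ _
    have hq : 0 ≤ (X : ℝ) / L := by positivity
    have h4 : C * (S₁.card * (X / L)) ≤ C * ((2 * (c₀ * L)) * (X / L)) := by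
      have : (S₁.card : ℝ) ≤ 2 * (c₀ * L) := by linarith
      gcongr
    have h5 : C * (S₂.card * (X / L)) ≤ C * ((2 * (c₀ * L)) * (X / L)) := by
      have : (S₂.card : ℝ) ≤ 2 * (c₀ * L) := by linarith
      gcongr
    have h6 : C * ((2 * (c₀ * L)) * (X / L)) = ε * X / 3 := by
      rw [hc₀d]
      field_simp
      norm_num
    have h7 : 0 ≤ ε * X := by positivity
    linarith
  · intro n hn1 hn2 hnB p q hp hq hpq hsum
    rw [mem_union, not_or] at hnB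
    have hqS₁ := hn₁ n hn1 hn2 hnB.1 q p hp hsum
    have hqS₂ := hn₂ n hn1 hn2 hnB.2 q p hp hsum
    have hpS₂ := hn₂ n hn1 hn2 hnB.2 p q hq (by omega)
    have h3 := hm₁ q (by omega) hq.one_lt.le ⟨hq, hpq⟩ hqS₁
    have h4 := hX2 q (hm₂ q (by omega) hq.one_lt.le hq hqS₂)
    have h5 := hX2 p (hm₂ p (by omega) hp.one_lt.le hp hpS₂)
    have hL : 0 ≤ L := by linarith
    have h9 : min c₀ c₁ * L ≤ c₀ * L := mul_le_mul_of_nonneg_right (min_le_left _ _) hL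
    have h10 : min c₀ c₁ * (L * Real.log L) ≤ c₁ * (L * Real.log L) :=
      mul_le_mul_of_nonneg_right (min_le_right _ _) (mul_nonneg hL (Real.log_nonneg h2))
    have h11 : cn Adm q ≤ Set.ncard {q' : ℕ | q' < q ∧ q'.Prime ∧
        (Nat.nth Nat.Prime (q' + 1) + 2).Prime} := by
      unfold cn
      apply Set.ncard_le_ncard
      · rintro j ⟨-, hj2, hj3⟩
        exact ⟨hj2, hj3.1, hj3.2⟩
      · exact (Set.finite_Iio q).subset (fun j hj => hj.1)
    have h12 : (cn Adm q : ℝ) ≤ Set.ncard {q' : ℕ | q' < q ∧ q'.Prime ∧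
        (Nat.nth Nat.Prime (q' + 1) + 2).Prime} := by exact_mod_cast h11
    exact ⟨by linarith, by linarith, by linarith⟩

end Pool.Agent.Results.MP_0ec542_nt.BothPrimesLarge
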